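import Pool.Agent.T2H42.PJ.All

/-!
# A lower bound for `per(J_k ⊗ M)`, `M` positive semidefinite

`per(J_k ⊗ M) ≥ (4/5)^(m(k-2)) (k!)^m (per M)^k` for all positive semidefinite `m × m` matrices `M` and all `k ≥ 2`, and an explicit
better factor depending on the rank.
-/

set_option autoImplicit false

open scoped Nat ComplexOrder

namespace Pool.Agent.Results.MP_8d2b2d_co.AllPsd

open Pool.Agent.T2H42.PJ

/-- Let `M` be a complex positive semidefinite `m × m` matrix, `m ≥ 1`, and `k ≥ 2`. Then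
`(4/5)^(m(k-2)) (k!)^m (per M)^k ≤ per(J_k ⊗ M)`. More precisely, if `rank M ≤ r` and `r ≥ 1`, then
`2^(m(k-1)) (km+r-1)! (m+r-1)!^(k-2) (per M)^k ≤ (2m+r-1)!^(k-1) per(J_k ⊗ M)`. -/
theorem result (k m : ℕ) (M : Matrix (Fin m) (Fin m) ℂ) (hm : 1 ≤ m) (hk : 2 ≤ k) (hM : M.PosSemidef) :
    ((((4 : ℝ) / 5) ^ (m * (k - 2)) * (k ! : ℝ) ^ m : ℝ) : ℂ) * M.permanent ^ k ≤
        (Matrix.kronecker (Matrix.of fun _ _ : Fin k => (1 : ℂ)) M).permanent ∧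
    ∀ r : ℕ, 1 ≤ r → M.rank ≤ r →
      ((2 ^ (m * (k - 1)) * ((k * m + r - 1)! * (m + r - 1)! ^ (k - 2)) : ℕ) : ℂ) * M.permanent ^ k ≤
        (((2 * m + r - 1)! ^ (k - 1) : ℕ) : ℂ) *
          (Matrix.kronecker (Matrix.of fun _ _ : Fin k => (1 : ℂ)) M).permanent :=
  ⟨fourFifths pGRM tJEN2 tTWO pHAD tARIC k m M hm hk hM, fun r hr hrM =>
    explicitK pGRM tJEN2 tTWO pHAD k m r M hr hk hM hrM⟩

end Pool.Agent.Results.MP_8d2b2d_co.AllPsd
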