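import Pool.Agent.T2H42.PJ.All

/-!
# Pate's permanent inequality for positive semidefinite matrices of low rank

`(k!)^m (per M)^k ≤ per(J_k ⊗ M)` for all `k` and all positive semidefinite `m × m` matrices `M` with `2 rank M ≤ m + 1`.
-/

set_option autoImplicit false

open scoped Nat ComplexOrder

namespace Pool.Agent.Results.MP_8d2b2d_co.LowRank

/-- Let `M` be a complex positive semidefinite `m × m` matrix of rank `r`. If `2r ≤ m + 1`, or only
`r (r+1) ⋯ (r+m-1) ≤ m^m`, then `(k!)^m (per M)^k ≤ per(J_k ⊗ M)` for all `k`, with `J_k` the `k × k` matrix with all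
entries `1`. -/
theorem result (k m : ℕ) (M : Matrix (Fin m) (Fin m) ℂ) (hM : M.PosSemidef)
    (h : 2 * M.rank ≤ m + 1 ∨ M.rank.ascFactorial m ≤ m ^ m) :
    (k ! : ℂ) ^ m * M.permanent ^ k ≤
      (Matrix.kronecker (Matrix.of fun _ _ : Fin k => (1 : ℂ)) M).permanent := by
  by_cases h1 : 2 * M.rank ≤ m + 1
  · exact Pool.Agent.T2H42.PJ.tPATE k m M hM h1
  have h2 : M.rank.ascFactorial m ≤ m ^ m := h.resolve_left h1
  rcases Nat.eq_zero_or_pos k with rfl | hk
  · simp [Matrix.permanent]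
  have hr : 1 ≤ M.rank := by omega
  have ha := Pool.Agent.T2H42.PJ.pARI.1 M.rank m k hr hk h2
  have := Pool.Agent.T2H42.PJ.FIN2.gen' Pool.Agent.T2H42.PJ.pGRM Pool.Agent.T2H42.PJ.tJEN
    Pool.Agent.T2H42.PJ.pHAD k m M.rank M hk hr hM le_rfl ((k ! : ℝ) ^ m) (by exact_mod_cast ha)
  push_cast at this
  exact this

end Pool.Agent.Results.MP_8d2b2d_co.LowRank
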